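import Pool.Agent.ALT.Ex.Pol
import Pool.Agent.ARB.Pair

/-! # ALT, narrower exception: rational tangles in the variable `s` -/

set_option autoImplicit false

namespace Pool.ALT

open LaurentPolynomial Pool.Agent.ARB Pool.Agent.Helper2

/-- the closures of `R` in the variable `s`, up to a unit -/
def Rep (e : Bool) (R : Arb) (b a : LP) : Prop := ∃ u : LP, IsU u ∧
  R.pair.2 + loopVal * R.pair.1 = u * phi e a ∧
  T (2 * sg e) * (R.pair.1 + loopVal * R.pair.2) = -(u * phi e b)

theorem ex_phi1 (e : Bool) : phi e (T 1) = -T (sg e) ^ 4 := by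
  rw [ex_phi_T, zpow_one]
  show -T (4 * sg e) = _
  rw [T_pow]
  norm_num

theorem ex_phi2 (e : Bool) : phi e (T (-1)) = -T (-sg e) ^ 4 := by
  rw [ex_phi_T, zpow_neg_one]
  show -T (-(4 * sg e)) = _
  rw [T_pow]
  congr 2
  ring

theorem ex_AA (e : Bool) : (T (sg e) : LP) * T (-sg e) = 1 := by
  rw [← T_add, add_neg_cancel, T_zero]

theorem ex_loop (e : Bool) : loopVal = -(T (sg e) ^ 2 + T (-sg e) ^ 2) := by
  unfold loopVal
  cases e
  · show _ = -(T (-1) ^ 2 + T (- -1) ^ 2)
    rw [T_pow, T_pow, add_comm]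
    norm_num
  · show _ = -(T 1 ^ 2 + T (-1) ^ 2)
    rw [T_pow, T_pow]
    norm_num

theorem ex_T2 (e : Bool) : (T (2 * sg e) : LP) = T (sg e) ^ 2 := by
  rw [T_pow]
  norm_num

theorem ex_isU_T (k : ℤ) : IsU (T k : LP) := IsU.T k

theorem rep_scale {e : Bool} {R : Arb} {b a c : LP} (hc : IsU (phi e c))
    (h : Rep e R (c * b) (c * a)) : Rep e R b a := by
  obtain ⟨u, hu, h1, h2⟩ := h
  refine ⟨u * phi e c, hu.mul hc, ?_, ?_⟩
  · rw [h1, RingHom.map_mul (phi e)]
    ring
  · rw [h2, RingHom.map_mul (phi e)]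
    ring

theorem rep_zero (e : Bool) : Rep e .zero (-uu) 1 := by
  refine ⟨1, IsU.one, ?_, ?_⟩
  · show (1 : LP) + loopVal * 0 = 1 * phi e 1
    rw [RingHom.map_one (phi e)]
    ring
  · show T (2 * sg e) * ((0 : LP) + loopVal * 1) = -(1 * phi e (-uu))
    unfold uu
    rw [RingHom.map_neg (phi e), RingHom.map_sub (phi e), RingHom.map_one (phi e), ex_phi1,
      ex_loop e, ex_T2]
    have h := ex_AA e
    linear_combination -(T (sg e) * T (-sg e) + 1) * h

/-- one more crossing of the other type -/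
theorem rep_R {e : Bool} {R : Arb} {b a : LP} (h : Rep e R b a) :
    Rep e (.sum R (.cross (!e))) (T (-1) * b + a) a := by
  obtain ⟨u, hu, h1, h2⟩ := h
  have hp : (Arb.cross (!e)).pair = (T (sg e), T (-sg e)) := by
    cases e <;> rfl
  have hA := ex_AA e
  rw [ex_T2] at h2
  refine ⟨-(T (sg e) ^ 3) * u, ?_, ?_, ?_⟩
  · have h3 : IsU (-(T (sg e) ^ 3 : LP)) := by
      rw [T_pow]
      exact (IsU.T _).neg
    exact h3.mul hu
  · show R.pair.2 * (Arb.cross (!e)).pair.2 + loopVal * (R.pair.1 * (Arb.cross (!e)).pair.2 +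
      R.pair.2 * (Arb.cross (!e)).pair.1 + loopVal * (R.pair.1 * (Arb.cross (!e)).pair.1)) = _
    rw [hp]
    rw [ex_loop e] at h1 ⊢
    linear_combination -(T (sg e) ^ 3) * h1 - (R.pair.2 - (T (sg e) ^ 2 + T (-sg e) ^ 2) *
      R.pair.1) * T (-sg e) * hA
  · show T (2 * sg e) * (R.pair.1 * (Arb.cross (!e)).pair.2 +
      R.pair.2 * (Arb.cross (!e)).pair.1 + loopVal * (R.pair.1 * (Arb.cross (!e)).pair.1) +
      loopVal * (R.pair.2 * (Arb.cross (!e)).pair.2)) = _
    rw [hp, RingHom.map_add (phi e), RingHom.map_mul (phi e), ex_phi2, ex_T2]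
    have h3 : T (sg e) ^ 2 * (R.pair.1 * T (-sg e) + R.pair.2 * T (sg e) +
        loopVal * (R.pair.1 * T (sg e)) + loopVal * (R.pair.2 * T (-sg e))) =
        T (-sg e) * (T (sg e) ^ 2 * (R.pair.1 + loopVal * R.pair.2)) +
          T (sg e) ^ 3 * (R.pair.2 + loopVal * R.pair.1) := by ring
    show T (sg e) ^ 2 * (R.pair.1 * T (-sg e) + R.pair.2 * T (sg e) +
        loopVal * (R.pair.1 * T (sg e)) + loopVal * (R.pair.2 * T (-sg e))) = _
    rw [h3, h1, h2]
    linear_combination u * phi e b * T (-sg e) * ((T (sg e) * T (-sg e)) ^ 2 +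
      T (sg e) * T (-sg e) + 1) * hA

/-- rotation -/
theorem rep_rot {e : Bool} {R : Arb} {b a : LP} (h : Rep e R b a) :
    Rep e (.rot R) (-(T 1 * a)) b := by
  obtain ⟨u, hu, h1, h2⟩ := h
  have hA := ex_AA e
  rw [ex_T2] at h2
  refine ⟨-(T (-sg e) ^ 2) * u, ?_, ?_, ?_⟩
  · have h3 : IsU (-(T (-sg e) ^ 2 : LP)) := by
      rw [T_pow]
      exact (IsU.T _).neg
    exact h3.mul hu
  · show R.pair.1 + loopVal * R.pair.2 = _
    linear_combination T (-sg e) ^ 2 * h2 - (R.pair.1 + loopVal * R.pair.2) *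
      (T (sg e) * T (-sg e) + 1) * hA
  · show T (2 * sg e) * (R.pair.2 + loopVal * R.pair.1) = _
    rw [h1, ex_T2, RingHom.map_neg (phi e), RingHom.map_mul (phi e), ex_phi1]
    linear_combination -(T (sg e) ^ 2 * u * phi e a) * (T (sg e) * T (-sg e) + 1) * hA

/-- one more crossing of the same type -/
theorem rep_S {e : Bool} {R : Arb} {b a : LP} (h : Rep e R b a) :
    Rep e (.sum R (.cross e)) (T 1 * (b - a)) a := by
  obtain ⟨u, hu, h1, h2⟩ := h
  have hp : (Arb.cross e).pair = (T (-sg e), T (sg e)) := by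
    cases e <;> rfl
  have hA := ex_AA e
  rw [ex_T2] at h2
  refine ⟨-(T (-sg e) ^ 3) * u, ?_, ?_, ?_⟩
  · have h3 : IsU (-(T (-sg e) ^ 3 : LP)) := by
      rw [T_pow]
      exact (IsU.T _).neg
    exact h3.mul hu
  · show R.pair.2 * (Arb.cross e).pair.2 + loopVal * (R.pair.1 * (Arb.cross e).pair.2 +
      R.pair.2 * (Arb.cross e).pair.1 + loopVal * (R.pair.1 * (Arb.cross e).pair.1)) = _
    rw [hp]
    rw [ex_loop e] at h1 ⊢
    linear_combination -(T (-sg e) ^ 3) * h1 - (R.pair.2 - (T (sg e) ^ 2 + T (-sg e) ^ 2) *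
      R.pair.1) * T (sg e) * hA
  · show T (2 * sg e) * (R.pair.1 * (Arb.cross e).pair.2 +
      R.pair.2 * (Arb.cross e).pair.1 + loopVal * (R.pair.1 * (Arb.cross e).pair.1) +
      loopVal * (R.pair.2 * (Arb.cross e).pair.2)) = _
    rw [hp, RingHom.map_mul (phi e), RingHom.map_sub (phi e), ex_phi1, ex_T2]
    have h3 : T (sg e) ^ 2 * (R.pair.1 * T (sg e) + R.pair.2 * T (-sg e) +
        loopVal * (R.pair.1 * T (-sg e)) + loopVal * (R.pair.2 * T (sg e))) =
        T (sg e) * (T (sg e) ^ 2 * (R.pair.1 + loopVal * R.pair.2)) +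
          T (sg e) ^ 2 * T (-sg e) * (R.pair.2 + loopVal * R.pair.1) := by ring
    show T (sg e) ^ 2 * (R.pair.1 * T (sg e) + R.pair.2 * T (-sg e) +
        loopVal * (R.pair.1 * T (-sg e)) + loopVal * (R.pair.2 * T (sg e))) = _
    rw [h3, h1, h2]
    linear_combination (T (sg e) * u * phi e a + T (sg e) * u * (phi e b - phi e a) *
      ((T (sg e) * T (-sg e)) ^ 2 + T (sg e) * T (-sg e) + 1)) * hA

/-- the rational tangle of a word -/
def Wt (e : Bool) : List Bool → Arb
  | [] => .sum .zero (.cross (!e))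
  | true :: l => .sum (Wt e l) (.cross (!e))
  | false :: l => .rot (.sum (.rot (Wt e l)) (.cross e))

theorem wt_rat (e : Bool) (l : List Bool) : Pool.Agent.ARB.Rat (Wt e l) := by
  induction l with
  | nil => exact Pool.Agent.ARB.Rat.add _ _ Pool.Agent.ARB.Rat.zero
  | cons c l ih =>
    cases c with
    | true => exact Pool.Agent.ARB.Rat.add _ _ ih
    | false => exact Pool.Agent.ARB.Rat.rot _ (Pool.Agent.ARB.Rat.add _ _
        (Pool.Agent.ARB.Rat.rot _ ih))

theorem wt_rep (e : Bool) (l : List Bool) : Rep e (Wt e l) (Fw l).1 (Fw l).2 := by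
  induction l with
  | nil =>
    have h := rep_R (rep_zero e)
    have e1 : T (-1) * -uu + 1 = (T (-1) : LP) := by
      unfold uu
      have h2 : (T (-1) : LP) * T 1 = 1 := by
        rw [← T_add, neg_add_cancel, T_zero]
      linear_combination -h2
    rw [e1] at h
    exact h
  | cons c l ih =>
    cases c with
    | true => exact rep_R ih
    | false =>
      have h := rep_rot (rep_S (rep_rot ih))
      refine rep_scale (c := -T 1) ?_ ?_
      · rw [RingHom.map_neg (phi e), ex_phi1, neg_neg, T_pow]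
        exact IsU.T _
      · have e1 : -(T 1) * (Fw (false :: l)).1 = -(T 1 * (Fw l).1) := by
          show -(T 1) * (Fw l).1 = _
          ring
        have e2 : -(T 1) * (Fw (false :: l)).2 = T 1 * (-(T 1 * (Fw l).2) - (Fw l).1) := by
          show -(T 1) * (T 1 * (Fw l).2 + (Fw l).1) = _
          ring
        rw [e1, e2]
        exact h

/-- the slope of a word -/
def Sl : List Bool → ℕ × ℕ
  | [] => (1, 1)
  | true :: l => ((Sl l).1 + (Sl l).2, (Sl l).2)
  | false :: l => ((Sl l).1, (Sl l).1 + (Sl l).2)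

theorem wt_pq (e : Bool) (l : List Bool) : ∃ c : ℤ, (c = 1 ∨ c = -1) ∧
    (Wt e l).pq.1 = -(c * sg e * (Sl l).1) ∧ (Wt e l).pq.2 = c * (Sl l).2 := by
  have hx : (Arb.cross e).pq = (sg e, 1) := by
    cases e <;> rfl
  have hx' : (Arb.cross (!e)).pq = (-sg e, 1) := by
    cases e <;> rfl
  have hs : sg e * sg e = 1 := by
    cases e <;> rfl
  induction l with
  | nil =>
    refine ⟨1, Or.inl rfl, ?_, ?_⟩
    · show (0 : ℤ) * (Arb.cross (!e)).pq.2 + 1 * (Arb.cross (!e)).pq.1 = -(1 * sg e * ((1 : ℕ) : ℤ))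
      rw [hx']
      push_cast
      ring
    · show (1 : ℤ) * (Arb.cross (!e)).pq.2 = 1 * ((1 : ℕ) : ℤ)
      rw [hx']
      push_cast
  | cons k l ih =>
    obtain ⟨c, hc, h1, h2⟩ := ih
    cases k with
    | true =>
      refine ⟨c, hc, ?_, ?_⟩
      · show (Wt e l).pq.1 * (Arb.cross (!e)).pq.2 + (Wt e l).pq.2 * (Arb.cross (!e)).pq.1 =
          -(c * sg e * (((Sl l).1 + (Sl l).2 : ℕ) : ℤ))
        rw [hx', h1, h2]
        push_cast
        ring
      · show (Wt e l).pq.2 * (Arb.cross (!e)).pq.2 = c * ((Sl l).2 : ℤ)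
        rw [hx', h2]
        ring
    | false =>
      refine ⟨-c, by rcases hc with hc | hc <;> rw [hc] <;> norm_num, ?_, ?_⟩
      · show -(Wt e l).pq.1 * (Arb.cross e).pq.2 = -(-c * sg e * ((Sl l).1 : ℤ))
        rw [hx, h1]
        ring
      · show -((Wt e l).pq.2 * (Arb.cross e).pq.2 + -(Wt e l).pq.1 * (Arb.cross e).pq.1) =
          -c * (((Sl l).1 + (Sl l).2 : ℕ) : ℤ)
        rw [hx, h1, h2]
        push_cast
        linear_combination -(c * ((Sl l).1 : ℤ)) * hs

theorem sl_ex : ∀ (n P Q : ℕ), P + Q ≤ n → 0 < P → 0 < Q → Nat.Coprime P Q →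
    ∃ l, Sl l = (P, Q) := by
  intro n
  induction n with
  | zero => intro P Q h h1; omega
  | succ n ih =>
    intro P Q h h1 h2 h3
    rcases lt_trichotomy P Q with h4 | h4 | h4
    · obtain ⟨l, hl⟩ := ih P (Q - P) (by omega) h1 (by omega) (by
        rw [Nat.coprime_sub_self_right h4.le]
        exact h3)
      refine ⟨false :: l, ?_⟩
      show ((Sl l).1, (Sl l).1 + (Sl l).2) = _
      rw [hl]
      show (P, P + (Q - P)) = _
      rw [Nat.add_sub_cancel' h4.le]
    · subst h4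
      rw [Nat.coprime_self] at h3
      exact ⟨[], by rw [h3]; rfl⟩
    · obtain ⟨l, hl⟩ := ih (P - Q) Q (by omega) (by omega) h2 (by
        rw [Nat.coprime_sub_self_left h4.le]
        exact h3)
      refine ⟨true :: l, ?_⟩
      show ((Sl l).1 + (Sl l).2, (Sl l).2) = _
      rw [hl]
      show (P - Q + Q, Q) = _
      rw [Nat.sub_add_cancel h4.le]

/-- inversion of `s` exchanges the two moves -/
theorem fw_inv (l : List Bool) : invert (Fw l).1 = T 1 * (Fw (l.map not)).2 ∧
    invert (Fw l).2 = T 1 * (Fw (l.map not)).1 := by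
  have h11 : (T 1 : LP) * T (-1) = 1 := by
    rw [← T_add, add_neg_cancel, T_zero]
  induction l with
  | nil =>
    refine ⟨?_, ?_⟩
    · show invert (T (-1) : LP) = T 1 * 1
      rw [invert_T, mul_one, neg_neg]
    · show invert (1 : LP) = T 1 * T (-1)
      rw [map_one, h11]
  | cons c l ih =>
    obtain ⟨h1, h2⟩ := ih
    cases c with
    | true =>
      refine ⟨?_, h2⟩
      show invert (T (-1) * (Fw l).1 + (Fw l).2) = T 1 * (T 1 * (Fw (l.map not)).2 +
        (Fw (l.map not)).1)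
      rw [map_add, map_mul, invert_T, neg_neg, h1, h2]
      ring
    | false =>
      refine ⟨h1, ?_⟩
      show invert (T 1 * (Fw l).2 + (Fw l).1) = T 1 * (T (-1) * (Fw (l.map not)).1 +
        (Fw (l.map not)).2)
      rw [map_add, map_mul, invert_T, h1, h2]
      ring

end Pool.ALT
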