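import Pool.Agent.ALT.Fin
import Pool.Agent.ALT.Ex.Tan

/-! # ALT, narrower exception: only a leaf and one crossing -/

set_option autoImplicit false

namespace Pool.ALT

open LaurentPolynomial Pool.Agent.ARB Pool.Agent.Helper2

theorem ex_sum {w w' : Word} {g b g' b' : LP} (h : HasPair w g b) (h' : HasPair w' g' b') :
    HasPair (w ++ w') (g * b' + b * g' + loopVal * (g * g')) (b * b') := by
  intro V _ _ M hM j n x hj hx
  have hx' : M.Supp (n - 2 + 2) x := by
    rw [show n - 2 + 2 = n by omega]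
    exact hx
  have hc : M.Supp (n - 2) (M.cap j x) := M.supp_cap _ _ _ (by omega) hx'
  have he : M.Supp n (M.cup j (M.cap j x)) := by
    have h := M.supp_cup _ j _ (by omega) hc
    rw [show n - 2 + 2 = n by omega] at h
    exact h
  rw [sh_append, pairRun_append, h V M hM j n x hj hx, map_add, map_smul, map_smul,
    h' V M hM j n x hj hx, h' V M hM j n _ hj he]
  have h1 : M.cap j (M.cup j (M.cap j x)) = loopVal • M.cap j x := by
    rw [← hM.del]
    exact M.rel1 _ _ _ hc (by omega)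
  rw [h1, map_smul]
  module

theorem ex_NW {w : Word} {g b : LP} (h : HasPair w g b) (V : Type) [AddCommGroup V] [Module LP V]
    (M : Model LP V) (hM : Good M) :
    runW M (NW w) M.init = (loopVal * (g + loopVal * b)) • M.init := by
  have h0 := M.supp_init
  have h2 : M.Supp 2 (M.cup 0 M.init) := M.supp_cup 0 0 _ (by omega) h0
  have h4 : M.Supp 4 (M.cup 1 (M.cup 0 M.init)) := M.supp_cup 2 1 _ (by omega) h2
  have e : runW M (NW w) M.init =
      M.cap 0 (M.cap 1 (runW M w (M.cup 1 (M.cup 0 M.init)))) := by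
    show runW M (pU 0 :: pU 1 :: (w ++ [pN 1, pN 0])) M.init = _
    rw [pairRun_cons, pairRun_cons, pairRun_append]
    rfl
  have h5 := h V M hM 0 4 _ (by omega) h4
  rw [sh_zero] at h5
  have h6 : M.cap 0 (M.cup 1 (M.cup 0 M.init)) = M.cup 0 M.init := M.rel3 2 0 _ h2 (by omega)
  have h7 : M.cap 1 (M.cup 1 (M.cup 0 M.init)) = loopVal • M.cup 0 M.init := by
    rw [← hM.del]
    exact M.rel1 2 1 _ h2 (by omega)
  have h8 : M.cap 1 (M.cup 0 (M.cup 0 M.init)) = M.cup 0 M.init := M.rel2 2 0 _ h2 (by omega)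
  have h9 : M.cap 0 (M.cup 0 M.init) = loopVal • M.init := by
    rw [← hM.del]
    exact M.rel1 0 0 _ h0 (by omega)
  rw [e, h5, h6]
  simp only [map_add, map_smul]
  rw [h7, h8]
  simp only [map_smul]
  rw [h9]
  module

/-- the bracket of a closed word which is isotopic to the closure of `w` -/
theorem ex_br {w w' : Word} {g b : LP} (h : HasPair w g b) (hD : Ok w' 0 0)
    (hI : Iso 0 w' (NW w)) : ∃ u : LP, IsU u ∧ bracket (toD w') = u * (g + loopVal * b) := by
  obtain ⟨V, _, _, M, hM, hinj⟩ := thm_Vert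
  have hfo : forget (toD w') = w' := Pool.Agent.ALT.forget_lift w'
  have hok : Pool.Agent.Helper2.Ok (toD w') 0 0 := Pool.Agent.ALT.lift_ok w' 0 0 hD
  obtain ⟨u, hu, hrun⟩ := thm_Inv V M hM 0 0 w' (NW w) hD hI
  refine ⟨u, hu, ?_⟩
  have h4 := hrun M.init M.supp_init
  by_cases hne : w' = []
  · exfalso
    subst hne
    rw [ex_NW h V M hM, smul_smul] at h4
    have h5 : (1 : LP) • M.init = (u * (loopVal * (g + loopVal * b))) • M.init := by
      rw [one_smul, ← h4]
      rfl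
    exact pairRun_loopVal_mul u _ (hinj _ _ h5)
  · have hne' : toD w' ≠ [] := by
      intro h5
      apply hne
      rw [← hfo, h5]
      rfl
    have h6 := thm_BrRun V M hM (toD w') hne' hok
    rw [hfo, h4, ex_NW h V M hM, smul_smul] at h6
    have h5 := hinj _ _ h6
    apply mul_left_cancel₀ pairRun_loopVal_ne
    rw [← h5]
    ring

/-- A leaf and a rational tangle of slope not `± 1` never have a unit bracket. -/
theorem ex_word {V W E : Type} [Fintype V] [Fintype W] [Fintype E] [DecidableEq E]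
    {g : Gr V E} {h : Gr W E} (hl : Lg g h) (e c : Bool) (l : List Bool) :
    ¬ IsU (phi e (g.be ⊥ Finset.univ * (Fw (c :: l)).2 -
      g.al ⊥ Finset.univ * (Fw (c :: l)).1)) := by
  cases c with
  | true =>
    obtain ⟨α, h1, h2⟩ := ex_two_coeff (ex_Lc hl) l
    have key : ∀ k, (g.be ⊥ Finset.univ * (Fw (true :: l)).2 -
        g.al ⊥ Finset.univ * (Fw (true :: l)).1).coeff k =
        -(g.al ⊥ Finset.univ * (Fw (true :: l)).1 -
        g.be ⊥ Finset.univ * (Fw (true :: l)).2).coeff k := by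
      intro k
      rw [← neg_sub, AddMonoidAlgebra.coeff_neg, Finsupp.neg_apply]
    refine ex_not_unit e _ α (α - 1) (by omega) ?_ ?_ <;> rw [key] <;> omega
  | false =>
    have hl' := hl.symm all_DS
    obtain ⟨α, h1, h2⟩ := ex_two_coeff (ex_Lc hl') (l.map not)
    obtain ⟨i1, i2, _⟩ := all_DI g h hl.du
    obtain ⟨f1, f2⟩ := fw_inv (false :: l)
    have key : ∀ k, (g.be ⊥ Finset.univ * (Fw (false :: l)).2 -
        g.al ⊥ Finset.univ * (Fw (false :: l)).1).coeff (-1 - k) =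
        (h.al ⊥ Finset.univ * (Fw (true :: l.map not)).1 -
        h.be ⊥ Finset.univ * (Fw (true :: l.map not)).2).coeff k := by
      intro k
      have h3 : T 1 * (h.al ⊥ Finset.univ * (Fw (true :: l.map not)).1 -
          h.be ⊥ Finset.univ * (Fw (true :: l.map not)).2) =
          invert (g.be ⊥ Finset.univ * (Fw (false :: l)).2 -
            g.al ⊥ Finset.univ * (Fw (false :: l)).1) := by
        rw [map_sub, map_mul, map_mul, f1, f2, ← i1, ← i2]
        show _ = h.al ⊥ Finset.univ * (T 1 * (Fw (true :: l.map not)).1) -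
          h.be ⊥ Finset.univ * (T 1 * (Fw (true :: l.map not)).2)
        ring
      have h4 := congrArg (fun P : LP => P.coeff (k + 1)) h3
      simp only [coeff_T_mul, invert_apply] at h4
      rw [show k + 1 - 1 = k by ring, show -(k + 1) = -1 - k by ring] at h4
      exact h4.symm
    refine ex_not_unit e _ (-1 - α) (-1 - (α - 1)) (by omega) ?_ ?_ <;> rw [key] <;> omega

/-- The only possible counterexamples are almost alternating. -/
theorem bad_cross (w : Word) (hw : IsLeaf w) (hb : Pool.Agent.ALT.BadLeaf w) : BadX w := by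
  classical
  obtain ⟨R, hR, hbr, hiso⟩ := hb
  obtain ⟨e, he⟩ := hw.alt
  have hl := mo_LF w hw
  have hpair := mo_PB w hw e he
  have hjet := thm_HJ e ((nX w : ℤ) - 2 * Fintype.card (Reg true w) + 2)
    ((gE w hw.ok).be ⊥ Finset.univ) ((gE w hw.ok).al ⊥ Finset.univ)
  obtain ⟨m, hm⟩ : ∃ m : ℤ, m = (nX w : ℤ) - 2 * Fintype.card (Reg true w) + 2 := ⟨_, rfl⟩
  have h4 : (nX w : ℤ) - 2 * Fintype.card (Reg true w) + 4 = m + 2 := by rw [hm]; ring
  rw [h4, ← hm] at hpair
  rw [← hm] at hjet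
  obtain ⟨g, hg⟩ : ∃ g, g = gE w hw.ok := ⟨_, rfl⟩
  rw [← hg] at hl hpair hjet
  have hM := all_M0 g ⊥ Finset.univ
  have hp2 := glue_two_le_p hl.du.con hl.pm
  have hq2 : 2 ≤ g.q ⊥ Finset.univ := by
    have hl' := hl.symm all_DS
    have h1 := glue_two_le_p hl'.du.con hl'.pm
    obtain ⟨_, e2⟩ := all_PQ g Finset.univ (glue_K_univ hl.du.con) hl.du.ab
    obtain ⟨f1, _⟩ := all_PQ _ Finset.univ (glue_K_univ hl'.du.con) hl'.du.ab
    obtain ⟨_, d2, _, _⟩ := all_DN g _ hl.du
    rw [f1, d2, ← e2] at h1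
    exact h1
  obtain ⟨J0, hJ0⟩ : ∃ J0, J0 = jetOf (g.be ⊥ Finset.univ) (g.al ⊥ Finset.univ) := ⟨_, rfl⟩
  have hp0 : J0.p = g.p ⊥ Finset.univ := by
    rw [hJ0]
    show ((mo 0 (g.be ⊥ Finset.univ) : ℤ) : ℚ) = _
    rw [hM.1]
    norm_cast
  have hq0 : J0.q = g.q ⊥ Finset.univ := by
    rw [hJ0]
    show ((mo 0 (g.al ⊥ Finset.univ) : ℤ) : ℚ) = _
    rw [hM.2]
    norm_cast
  rw [← hJ0] at hjet
  -- the word of `R`
  have hok : Ok (NW (w ++ R.word)) 0 0 := ok_NW (hw.ok.append (okA R))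
  have hRp : HasPair R.word R.pair.1 R.pair.2 := fun V _ _ M hM => (thm_PairRun V M hM).1 R
  have hunit : IsU (bracket (toD (NW (w ++ R.word)))) := hbr
  obtain ⟨u, hu, hbru⟩ := ex_br (ex_sum hpair hRp) hok (Iso.refl _ _)
  rw [hbru] at hunit
  have hun := Pool.Agent.ALT.isU_right hunit
  have hpj := (hjet.sum (Pool.Agent.ALT.PJ.arb R)).unit hun
  -- the determinant
  have hdet : (sg e * (g.p ⊥ Finset.univ : ℤ) * R.pq.2 + (g.q ⊥ Finset.univ : ℤ) * R.pq.1 = 1) ∨
      (sg e * (g.p ⊥ Finset.univ : ℤ) * R.pq.2 + (g.q ⊥ Finset.univ : ℤ) * R.pq.1 = -1) := by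
    have h1 := hpj.1
    have h2 : ∀ z : ℤ, ((z : ℤ) : ℚ) = 1 ∨ ((z : ℤ) : ℚ) = -1 → z = 1 ∨ z = -1 := by
      rintro z (h | h)
      · left
        exact_mod_cast h
      · right
        exact_mod_cast h
    apply h2
    have h3 : (Jet.sum (if e then J0 else ⟨-J0.p, J0.q, J0.w, J0.G, -J0.F, J0.H⟩) R.jet).p =
        ((sg e * (g.p ⊥ Finset.univ : ℤ) * R.pq.2 + (g.q ⊥ Finset.univ : ℤ) * R.pq.1 : ℤ) : ℚ) := by
      cases e with
      | true =>
        show J0.p * R.jet.q + J0.q * R.jet.p = _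
        rw [hp0, hq0, (jet_pq R).1, (jet_pq R).2]
        show _ = (((1 : ℤ) * (g.p ⊥ Finset.univ : ℤ) * R.pq.2 +
          (g.q ⊥ Finset.univ : ℤ) * R.pq.1 : ℤ) : ℚ)
        push_cast
        ring
      | false =>
        show -J0.p * R.jet.q + J0.q * R.jet.p = _
        rw [hp0, hq0, (jet_pq R).1, (jet_pq R).2]
        show _ = (((-1 : ℤ) * (g.p ⊥ Finset.univ : ℤ) * R.pq.2 +
          (g.q ⊥ Finset.univ : ℤ) * R.pq.1 : ℤ) : ℚ)
        push_cast
        ring
    rw [h3] at h1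
    exact h1
  obtain ⟨p, hp⟩ : ∃ p : ℤ, p = (g.p ⊥ Finset.univ : ℤ) := ⟨_, rfl⟩
  obtain ⟨q, hq⟩ : ∃ q : ℤ, q = (g.q ⊥ Finset.univ : ℤ) := ⟨_, rfl⟩
  have hp2' : 2 ≤ p := by rw [hp]; exact_mod_cast hp2
  have hq2' : 2 ≤ q := by rw [hq]; exact_mod_cast hq2
  rw [← hp, ← hq] at hdet
  obtain ⟨x, hx⟩ : ∃ x : ℤ, x = R.pq.1 := ⟨_, rfl⟩
  obtain ⟨y, hy⟩ : ∃ y : ℤ, y = sg e * R.pq.2 := ⟨_, rfl⟩
  have hs : sg e * sg e = 1 := by
    cases e <;> rfl
  have hy' : R.pq.2 = sg e * y := by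
    rw [hy, ← mul_assoc, hs, one_mul]
  have hdet' : p * y + q * x = 1 ∨ p * y + q * x = -1 := by
    rcases hdet with h | h
    · left
      rw [hy, hx]
      linarith
    · right
      rw [hy, hx]
      linarith
  -- opposite signs
  have hopp : (0 < x ∧ y < 0) ∨ (x < 0 ∧ 0 < y) := by
    rcases lt_trichotomy x 0 with h1 | h1 | h1
    · refine Or.inr ⟨h1, ?_⟩
      by_contra h2
      have h3 : y ≤ 0 := not_lt.1 h2
      rcases hdet' with h | h <;> nlinarith
    · exfalso
      rw [h1] at hdet'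
      have h2 : p ∣ 1 := by
        rcases hdet' with h | h
        · exact ⟨y, by linarith⟩
        · exact ⟨-y, by linarith⟩
      have h3 := Int.le_of_dvd one_pos h2
      omega
    · refine Or.inl ⟨h1, ?_⟩
      by_contra h2
      have h3 : 0 ≤ y := not_lt.1 h2
      rcases hdet' with h | h <;> nlinarith
  have hcop : IsCoprime R.pq.1 R.pq.2 := thm_T3a.1 R hR
  have hcop' : Nat.Coprime x.natAbs y.natAbs := by
    have h1 : IsCoprime x y := by
      rw [hx, hy]
      have h2 : IsUnit (sg e) := IsUnit.of_mul_eq_one _ hs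
      exact (isCoprime_mul_unit_left_right h2 _ _).2 hcop
    exact Int.isCoprime_iff_gcd_eq_one.1 h1
  obtain ⟨l, hsl⟩ := sl_ex _ x.natAbs y.natAbs le_rfl (by omega) (by omega) hcop'
  obtain ⟨c, hc, hc1, hc2⟩ := wt_pq e l
  rw [hsl] at hc1 hc2
  have hI : Iso 2 R.word (Wt e l).word := by
    refine all_T3 R (Wt e l) hR (wt_rat e l) ?_
    rw [hc1, hc2, ← hx, hy']
    simp only [Int.natCast_natAbs]
    rcases hopp with ⟨h1, h2⟩ | ⟨h1, h2⟩
    · rw [abs_of_pos h1, abs_of_neg h2]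
      linear_combination (c * x * y) * hs
    · rw [abs_of_neg h1, abs_of_pos h2]
      linear_combination -(c * x * y) * hs
  have hI0 : Iso 0 (NW (w ++ R.word)) (NW (w ++ (Wt e l).word)) :=
    congN _ _ (Iso.left hw.ok hI)
  cases l with
  | nil =>
    -- one crossing
    refine ⟨!e, ?_, ?_⟩
    · have hok' : Ok (NW (w ++ [pX 0 (!e)])) 0 0 :=
        ok_NW (hw.ok.append (okA (.cross (!e))))
      obtain ⟨u', hu', hbru'⟩ := ex_br (ex_sum hpair hRp) hok' hI0.symm
      have h1 : IsU (bracket (toD (NW (w ++ [pX 0 (!e)])))) := by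
        rw [hbru']
        exact hu'.mul hun
      exact h1
    · intro h1
      exact hiso (hI0.trans h1)
  | cons k l =>
    exfalso
    have hWp : HasPair (Wt e (k :: l)).word (Wt e (k :: l)).pair.1 (Wt e (k :: l)).pair.2 :=
      fun V _ _ M hM => (thm_PairRun V M hM).1 _
    obtain ⟨u', hu', hbru'⟩ := ex_br (ex_sum hpair hWp) hok hI0
    have h1 : IsU (bracket (toD (NW (w ++ R.word)))) := hbr
    rw [hbru'] at h1
    have h2 := Pool.Agent.ALT.isU_right h1
    obtain ⟨v, hv, r1, r2⟩ := wt_rep e (k :: l)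
    have h3 : T (sg e * m) * phi e (g.be ⊥ Finset.univ) * (Wt e (k :: l)).pair.2 +
        T (sg e * (m + 2)) * phi e (g.al ⊥ Finset.univ) * (Wt e (k :: l)).pair.1 +
        loopVal * (T (sg e * m) * phi e (g.be ⊥ Finset.univ) * (Wt e (k :: l)).pair.1) +
        loopVal * (T (sg e * (m + 2)) * phi e (g.al ⊥ Finset.univ) * (Wt e (k :: l)).pair.2) =
        T (sg e * m) * v * phi e (g.be ⊥ Finset.univ * (Fw (k :: l)).2 -
          g.al ⊥ Finset.univ * (Fw (k :: l)).1) := by
      have h5 : (T (sg e * (m + 2)) : LP) = T (sg e * m) * T (2 * sg e) := by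
        rw [← T_add]
        congr 1
        ring
      rw [h5, RingHom.map_sub (phi e), RingHom.map_mul (phi e), RingHom.map_mul (phi e)]
      linear_combination T (sg e * m) * phi e (g.be ⊥ Finset.univ) * r1 +
        T (sg e * m) * phi e (g.al ⊥ Finset.univ) * r2
    rw [h3] at h2
    exact ex_word hl e k l (Pool.Agent.ALT.isU_right h2)

end Pool.ALT
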