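import Pool.Agent.ALT.Glue.LL
import Pool.Agent.ALT.Tu.All

/-! # ALT, narrower exception: the two highest coefficients of a closure of a leaf graph -/

set_option autoImplicit false

namespace Pool.ALT

open LaurentPolynomial

theorem coeff_T_mul (n : ℤ) (P : LaurentPolynomial ℤ) (j : ℤ) :
    (T n * P).coeff j = P.coeff (j - n) := by
  rw [show (T n : LaurentPolynomial ℤ) = AddMonoidAlgebra.single n 1 from rfl,
    AddMonoidAlgebra.coeff_single_mul_eq_mul_coeff (j - n), one_mul]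
  intro m _
  constructor <;> intro h <;> omega

theorem coeff_add' (P Q : LaurentPolynomial ℤ) (j : ℤ) :
    (P + Q).coeff j = P.coeff j + Q.coeff j := by
  rw [AddMonoidAlgebra.coeff_add, Finsupp.add_apply]

section graph

variable {V E : Type} [Finite V] [DecidableEq E] (g : Gr V E)

/-- a minimal set with the same span -/
theorem ex_min (σ : Setoid V) (R : Finset E) : ∃ B ⊆ R, g.sp σ B = g.sp σ R ∧
    ∀ b ∈ B, ¬ g.sp σ (B.erase b) (g.u b) (g.v b) := by
  classical
  induction hn : R.card using Nat.strong_induction_on generalizing R with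
  | _ n ih =>
    by_cases h : ∃ b ∈ R, g.sp σ (R.erase b) (g.u b) (g.v b)
    · obtain ⟨b, hb, h1⟩ := h
      have h2 : (R.erase b).card < n := by
        rw [← hn]
        exact Finset.card_erase_lt_of_mem hb
      obtain ⟨B, hB, h3, h4⟩ := ih _ h2 (R.erase b) rfl
      refine ⟨B, hB.trans (Finset.erase_subset b R), ?_, h4⟩
      rw [h3, ← g.sp_insert_of h1, Finset.insert_erase hb]
    · push_neg at h
      exact ⟨R, subset_rfl, rfl, h⟩

/-- number of classes for an independent set -/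
theorem ex_card (σ : Setoid V) (B : Finset E)
    (h : ∀ b ∈ B, ¬ g.sp σ (B.erase b) (g.u b) (g.v b)) :
    nc (g.sp σ B) + B.card = nc σ := by
  induction hn : B.card generalizing σ B with
  | zero =>
    rw [Finset.card_eq_zero] at hn
    subst hn
    rw [g.sp_empty]
    rfl
  | succ n ih =>
    obtain ⟨b, hb⟩ : B.Nonempty := Finset.card_pos.1 (by omega)
    have hc : (B.erase b).card = n := by
      rw [Finset.card_erase_of_mem hb]
      omega
    have h1 := ih σ (B.erase b) (fun c hc' h2 => ?_) hc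
    · have h2 := g.nc_sp_insert (h b hb)
      rw [Finset.insert_erase hb] at h2
      omega
    · have hcB : c ∈ B := Finset.mem_of_mem_erase hc'
      refine h c hcB ?_
      exact g.sp_mono le_rfl (Finset.erase_subset_erase c (Finset.erase_subset b B)) h2

/-- `be` of an independent set -/
theorem ex_tree (σ : Setoid V) (hab : σ g.a g.b) (B : Finset E)
    (h : ∀ b ∈ B, ¬ g.sp σ (B.erase b) (g.u b) (g.v b)) :
    g.be σ B = T (B.card : ℤ) := by
  induction hn : B.card generalizing σ B with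
  | zero =>
    rw [Finset.card_eq_zero] at hn
    subst hn
    rw [((all_EM g σ).1 hab).1, Nat.cast_zero, T_zero]
  | succ n ih =>
    obtain ⟨b, hb⟩ : B.Nonempty := Finset.card_pos.1 (by omega)
    have hc : (B.erase b).card = n := by
      rw [Finset.card_erase_of_mem hb]
      omega
    have hle : g.ab ≤ g.sp σ (B.erase b) := (pr_le_iff _ _ _).2 (g.le_sp σ _ hab)
    have h1 : ¬ (g.sp σ (B.erase b) ⊔ g.ab) (g.u b) (g.v b) := by
      rw [sup_eq_left.2 hle]
      exact h b hb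
    rw [(all_CL g σ B b hb h1).1, ih (σ ⊔ g.pe b) ((le_sup_left : σ ≤ σ ⊔ g.pe b) hab) (B.erase b)
      (fun c hc' => ?_) hc, ← T_add]
    · congr 1
      push_cast
      ring
    · have hcB : c ∈ B := Finset.mem_of_mem_erase hc'
      have hne : c ≠ b := Finset.ne_of_mem_erase hc'
      rw [← g.sp_insert']
      have e : insert b ((B.erase b).erase c) = B.erase c := by
        rw [Finset.erase_right_comm, Finset.insert_erase]
        exact Finset.mem_erase.2 ⟨hne.symm, hb⟩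
      rw [e]
      exact h c hcB

/-- deleting elements which are not needed decreases all coefficients -/
theorem ex_mono (σ : Setoid V) (R' R : Finset E) (hs : R' ⊆ R)
    (hl : ∀ f ∈ R, ¬ σ (g.u f) (g.v f)) (hsp : g.sp σ R ≤ g.sp σ R') (j : ℤ) :
    (g.be σ R').coeff j ≤ (g.be σ R).coeff j := by
  induction hn : (R \ R').card generalizing R with
  | zero =>
    rw [Finset.card_eq_zero, Finset.sdiff_eq_empty_iff_subset] at hn
    rw [Finset.Subset.antisymm hs hn]
  | succ n ih =>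
    obtain ⟨f, hf⟩ : (R \ R').Nonempty := Finset.card_pos.1 (by omega)
    obtain ⟨hfR, hfR'⟩ := Finset.mem_sdiff.1 hf
    have hs' : R' ⊆ R.erase f := Finset.subset_erase.2 ⟨hs, hfR'⟩
    have hc : (R.erase f \ R').card = n := by
      rw [Finset.erase_sdiff_comm, Finset.card_erase_of_mem hf]
      omega
    have h1 := ih (R.erase f) hs' (fun e he => hl e (Finset.mem_of_mem_erase he))
      ((g.sp_mono le_rfl (Finset.erase_subset f R)).trans hsp) hc
    have h2 : (g.sp σ (R.erase f) ⊔ g.ab) (g.u f) (g.v f) := by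
      have h3 : g.sp σ R (g.u f) (g.v f) := (pr_le_iff _ _ _).1 (g.pe_le_sp σ hfR)
      exact (le_sup_left : g.sp σ (R.erase f) ≤ _) (g.sp_mono le_rfl hs' (hsp h3))
    rw [(all_GE g σ R f hfR (hl f hfR) h2).1, coeff_add']
    have h4 := (all_NN g (σ ⊔ g.pe f) (R.erase f)).1 j
    linarith

/-- the two highest coefficients -/
theorem ex_two (σ : Setoid V) (hab : σ g.a g.b) (R : Finset E)
    (hl : ∀ f ∈ R, ¬ σ (g.u f) (g.v f)) (hr : nc (g.sp σ R) + 2 ≤ nc σ)
    (hc : ∀ A ⊆ R, A.Nonempty → A ≠ R →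
      nc (g.sp σ A) + nc (g.sp σ (R \ A)) + 1 ≤ nc σ + nc (g.sp σ R)) :
    1 ≤ (g.be σ R).coeff ((nc σ : ℤ) - nc (g.sp σ R)) ∧
      1 ≤ (g.be σ R).coeff ((nc σ : ℤ) - nc (g.sp σ R) - 1) := by
  classical
  obtain ⟨B, hBR, hB1, hB2⟩ := ex_min g σ R
  have hcard := ex_card g σ B hB2
  rw [hB1] at hcard
  have hρ : (nc σ : ℤ) - nc (g.sp σ R) = B.card := by omega
  rw [hρ]
  have hB : ∀ j, (T (B.card : ℤ) : LaurentPolynomial ℤ).coeff j ≤ (g.be σ R).coeff j := by
    intro j
    rw [← ex_tree g σ hab B hB2]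
    exact ex_mono g σ B R hBR hl hB1.ge j
  refine ⟨?_, ?_⟩
  · refine le_trans ?_ (hB _)
    rw [T_apply, if_pos rfl]
  -- an edge which is not parallel to an edge of the tree
  obtain ⟨f, hfR, hfB, hf⟩ : ∃ f ∈ R, f ∉ B ∧ ∀ b ∈ B, ¬ (σ ⊔ g.pe b) (g.u f) (g.v f) := by
    by_contra hcon
    push_neg at hcon
    obtain ⟨b0, b1, hb0, hb1, hne⟩ : ∃ b0 b1, b0 ∈ B ∧ b1 ∈ B ∧ b1 ≠ b0 := by
      have h2 : 1 < B.card := by omega
      obtain ⟨x, hx, y, hy, hxy⟩ := Finset.one_lt_card.1 h2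
      exact ⟨x, y, hx, hy, hxy.symm⟩
    have hle : ∀ b c : E, b ∈ B → b ≠ c → σ ⊔ g.pe b ≤ g.sp σ (B.erase c) := by
      intro b c hb hbc
      exact sup_le (g.le_sp σ _) (g.pe_le_sp σ (Finset.mem_erase.2 ⟨hbc, hb⟩))
    have h3 := hc (R.filter fun f => (σ ⊔ g.pe b0) (g.u f) (g.v f)) (Finset.filter_subset _ _)
      ⟨b0, Finset.mem_filter.2 ⟨hBR hb0, (pr_le_iff _ _ _).1 le_sup_right⟩⟩ (by
        intro h4
        have h5 : b1 ∈ R.filter fun f => (σ ⊔ g.pe b0) (g.u f) (g.v f) := by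
          rw [h4]
          exact hBR hb1
        exact hB2 b1 hb1 (hle b0 b1 hb0 hne.symm (Finset.mem_filter.1 h5).2))
    have h6 : nc (σ ⊔ g.pe b0) ≤
        nc (g.sp σ (R.filter fun f => (σ ⊔ g.pe b0) (g.u f) (g.v f))) :=
      nc_anti (g.sp_le le_sup_left fun e he => (Finset.mem_filter.1 he).2)
    have h7 : nc (σ ⊔ g.pe b0) + 1 = nc σ := nc_sup_pr (hl b0 (hBR hb0))
    have h8 : g.sp σ (R \ R.filter fun f => (σ ⊔ g.pe b0) (g.u f) (g.v f)) ≤
        g.sp σ (B.erase b0) := by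
      refine g.sp_le (g.le_sp σ _) fun e he => ?_
      obtain ⟨heR, he2⟩ := Finset.mem_sdiff.1 he
      have he3 : ¬ (σ ⊔ g.pe b0) (g.u e) (g.v e) := fun h => he2 (Finset.mem_filter.2 ⟨heR, h⟩)
      by_cases heB : e ∈ B
      · have hne2 : e ≠ b0 := by
          rintro rfl
          exact he3 ((pr_le_iff _ _ _).1 le_sup_right)
        exact (pr_le_iff _ _ _).1 (g.pe_le_sp σ (Finset.mem_erase.2 ⟨hne2, heB⟩))
      · obtain ⟨b, hb, h9⟩ := hcon e heR heB
        have hne2 : b ≠ b0 := by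
          rintro rfl
          exact he3 h9
        exact hle b b0 hb hne2 h9
    have h10 := nc_anti h8
    have h11 := g.nc_sp_insert (hB2 b0 hb0)
    rw [Finset.insert_erase hb0, hB1] at h11
    omega
  have hins : insert f B ⊆ R := Finset.insert_subset hfR hBR
  have hspf : g.sp σ B (g.u f) (g.v f) := by
    rw [hB1]
    exact (pr_le_iff _ _ _).1 (g.pe_le_sp σ hfR)
  have hm := ex_mono g σ (insert f B) R hins hl (by rw [g.sp_insert_of hspf, hB1])
    ((B.card : ℤ) - 1)
  refine le_trans ?_ hm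
  have hge := (all_GE g σ (insert f B) f (Finset.mem_insert_self f B) (hl f hfR) (by
    rw [Finset.erase_insert hfB]
    exact (le_sup_left : g.sp σ B ≤ _) hspf)).1
  rw [Finset.erase_insert hfB] at hge
  rw [hge, coeff_add', ex_tree g σ hab B hB2, T_apply, if_neg (by omega), zero_add]
  -- the contraction
  have hl' : ∀ b ∈ B, ¬ (σ ⊔ g.pe f) (g.u b) (g.v b) := by
    intro b hb h1
    refine hf b hb ?_
    have hb0 := hl b (hBR hb)
    have h1' : (σ ⊔ pr (g.u f) (g.v f)) (g.u b) (g.v b) := h1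
    rw [sup_pr_iff] at h1'
    show (σ ⊔ pr (g.u b) (g.v b)) (g.u f) (g.v f)
    rw [sup_pr_iff]
    rcases h1' with h2 | ⟨h2, h3⟩ | ⟨h2, h3⟩
    · exact absurd h2 hb0
    · exact Or.inr (Or.inl ⟨σ.symm' h2, σ.symm' h3⟩)
    · exact Or.inr (Or.inr ⟨h3, h2⟩)
  obtain ⟨B', hB'B, hB'1, hB'2⟩ := ex_min g (σ ⊔ g.pe f) B
  have hcard' := ex_card g (σ ⊔ g.pe f) B' hB'2
  have hn1 : nc (σ ⊔ g.pe f) + 1 = nc σ := nc_sup_pr (hl f hfR)
  have hn2 : nc (g.sp (σ ⊔ g.pe f) B') = nc (g.sp σ R) := by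
    rw [hB'1, ← g.sp_insert', g.sp_insert_of hspf, hB1]
  have hm2 := ex_mono g (σ ⊔ g.pe f) B' B hB'B hl' hB'1.ge ((B.card : ℤ) - 1)
  rw [ex_tree g (σ ⊔ g.pe f) ((le_sup_left : σ ≤ σ ⊔ g.pe f) hab) B' hB'2, T_apply,
    if_pos (by omega)] at hm2
  exact hm2

end graph

end Pool.ALT
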