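import Pool.Agent.ALT.Ex.Gra

/-! # ALT, narrower exception: what is used of the graph of a leaf -/

set_option autoImplicit false

namespace Pool.ALT

open LaurentPolynomial

/-- contraction of `e0` -/
theorem ex_contr {V E : Type} [Finite V] [DecidableEq E] (g : Gr V E) (hab : g.a ≠ g.b)
    (R : Finset E) : g.be g.ab R = g.al ⊥ R + vv * g.be ⊥ R := by
  classical
  have hn : nc g.ab + 1 = nc (⊥ : Setoid V) := by
    have h1 := nc_sup_pr (σ := (⊥ : Setoid V)) (x := g.a) (y := g.b) (fun h => hab h)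
    rw [bot_sup_eq] at h1
    exact h1
  have hsp : ∀ A : Finset E, g.sp g.ab A = g.sp ⊥ A ⊔ g.ab := by
    intro A
    have h1 := g.sp_sup ⊥ g.ab A
    rw [bot_sup_eq] at h1
    exact h1
  have hK : g.K g.ab R = g.K ⊥ R := by
    unfold Gr.K
    rw [hsp, sup_assoc, sup_idem]
  have habs : ∀ A : Finset E, g.sp g.ab A g.a g.b := fun A => g.le_sp g.ab A (pr_rel _ _)
  unfold Gr.be Gr.al
  rw [Finset.mul_sum, Finset.filter_true_of_mem (fun A _ => habs A),
    ← Finset.sum_filter_add_sum_filter_not R.powerset (fun A => g.sp ⊥ A g.a g.b), add_comm]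
  congr 1
  · refine Finset.sum_congr rfl fun A hA => ?_
    have h1 : ¬ g.sp ⊥ A g.a g.b := (Finset.mem_filter.1 hA).2
    have h2 : nc (g.sp g.ab A) + 1 = nc (g.sp ⊥ A) := by
      rw [hsp]
      exact nc_sup_pr h1
    have h3 : g.nul g.ab A = g.nul ⊥ A := by
      unfold Gr.nul
      omega
    rw [hK, h3]
    congr 2
    omega
  · refine Finset.sum_congr rfl fun A hA => ?_
    have h1 : g.sp ⊥ A g.a g.b := (Finset.mem_filter.1 hA).2
    have h2 : g.sp g.ab A = g.sp ⊥ A := by
      rw [hsp]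
      exact sup_pr_of _ h1
    have h3 : g.nul g.ab A = g.nul ⊥ A + 1 := by
      unfold Gr.nul
      have h4 := g.nc_le_add_card ⊥ A
      rw [h2]
      omega
    rw [hK, h3, h2, pow_succ]
    ring

section leaf

variable {V W E : Type} [Fintype V] [Fintype W] [Fintype E] [DecidableEq E]

/-- a leaf graph has at least four vertices -/
theorem ex_four {g : Gr V E} {h : Gr W E} (hl : Lg g h) : 4 ≤ Fintype.card V := by
  classical
  by_contra hlt
  have hp := hl.pm
  have hab := hl.du.ab
  have : Nonempty V := ⟨g.a⟩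
  have hV : nc (⊥ : Setoid V) = Fintype.card V := by rw [nc_bot, Nat.card_eq_fintype_card]
  -- edges at `a`
  obtain ⟨A, hA⟩ : ∃ A : Finset E, A = Finset.univ.filter fun f => g.u f = g.a ∨ g.v f = g.a :=
    ⟨_, rfl⟩
  have hnl : ∀ f : E, g.u f ≠ g.v f := by
    intro f hf
    have hne : ({f} : Finset E) ≠ Finset.univ := by
      intro h2
      have h3 := congrArg Finset.card h2
      rw [Finset.card_singleton, Finset.card_univ] at h3
      have := hl.two
      omega
    have h1 := hp.c1 {f} (Finset.singleton_ne_empty f) hne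
    have h2 : g.sp ⊥ ({f} : Finset E) ≤ ⊥ := by
      refine g.sp_le le_rfl fun e he => ?_
      rw [Finset.mem_singleton.1 he]
      exact hf
    have h3 := nc_anti h2
    have h4 := nc_pos (g.sp ⊥ (Finset.univ \ {f}))
    omega
  have hnab : ∀ f : E, ¬ (g.u f = g.a ∧ g.v f = g.b) ∧ ¬ (g.u f = g.b ∧ g.v f = g.a) := by
    intro f
    have h1 := hp.dist f
    constructor
    · rintro ⟨h2, h3⟩
      apply h1
      rw [← h2, ← h3]
      exact (pr_le_iff _ _ _).1 (g.pe_le_sp ⊥ (Finset.mem_singleton_self f))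
    · rintro ⟨h2, h3⟩
      apply h1
      rw [← h2, ← h3]
      exact (g.sp ⊥ {f}).symm' ((pr_le_iff _ _ _).1 (g.pe_le_sp ⊥ (Finset.mem_singleton_self f)))
  -- every vertex different from `a` and `b` is the same
  have hthree : ∀ x y : V, x ≠ g.a → x ≠ g.b → y ≠ g.a → y ≠ g.b → x = y := by
    intro x y h1 h2 h3 h4
    by_contra hxy
    have h5 : ({g.a, g.b, x, y} : Finset V).card ≤ Fintype.card V := Finset.card_le_univ _
    rw [Finset.card_insert_of_notMem, Finset.card_insert_of_notMem, Finset.card_insert_of_notMem,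
      Finset.card_singleton] at h5
    · omega
    · simpa using hxy
    · simp only [Finset.mem_insert, Finset.mem_singleton, not_or]
      exact ⟨h2.symm, h4.symm⟩
    · simp only [Finset.mem_insert, Finset.mem_singleton, not_or]
      exact ⟨hab, h1.symm, h3.symm⟩
  have key : ∀ (c d : V) (B : Finset E), (c = g.a ∧ d = g.b) ∨ (c = g.b ∧ d = g.a) →
      (∀ f ∈ B, g.u f ≠ d ∧ g.v f ≠ d) → 2 ≤ nc (g.sp ⊥ B) := by
    intro c d B hcd hB
    -- `d` is alone
    have h1 : ¬ g.sp ⊥ B c d := by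
      intro h2
      have h3 : g.sp ⊥ B ≤ Setoid.ker fun x : V => decide (x = d) := by
        refine g.sp_le bot_le fun e he => ?_
        obtain ⟨h4, h5⟩ := hB e he
        show decide (g.u e = d) = decide (g.v e = d)
        rw [decide_eq_false h4, decide_eq_false h5]
      have h6 : decide (c = d) = decide (d = d) := h3 h2
      have h7 : c ≠ d := by
        rcases hcd with ⟨h8, h9⟩ | ⟨h8, h9⟩
        · rw [h8, h9]
          exact hab
        · rw [h8, h9]
          exact hab.symm
      rw [decide_eq_false h7, decide_eq_true rfl] at h6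
      exact Bool.false_ne_true h6
    have h2 := nc_sup_pr h1
    have h3 := nc_pos (g.sp ⊥ B ⊔ pr c d)
    omega
  have hAc : ∀ f ∈ A, g.u f ≠ g.b ∧ g.v f ≠ g.b := by
    intro f hf
    rw [hA, Finset.mem_filter] at hf
    obtain ⟨n1, n2⟩ := hnab f
    rcases hf.2 with h1 | h1
    · refine ⟨by rw [h1]; exact hab, fun h2 => n1 ⟨h1, h2⟩⟩
    · refine ⟨fun h2 => n2 ⟨h2, h1⟩, by rw [h1]; exact hab⟩
  have hAd : ∀ f ∈ Finset.univ \ A, g.u f ≠ g.a ∧ g.v f ≠ g.a := by
    intro f hf
    have h1 : f ∉ A := (Finset.mem_sdiff.1 hf).2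
    rw [hA, Finset.mem_filter] at h1
    push_neg at h1
    exact h1 (Finset.mem_univ f)
  have k1 := key g.a g.b A (Or.inl ⟨rfl, rfl⟩) hAc
  have k2 := key g.b g.a (Finset.univ \ A) (Or.inr ⟨rfl, rfl⟩) hAd
  have hcon := hl.du.con
  by_cases hA0 : A = ∅
  · have h1 := k2
    rw [hA0, Finset.sdiff_empty] at h1
    omega
  by_cases hA1 : A = Finset.univ
  · rw [hA1] at k1
    omega
  have h3 := hp.c1 A hA0 hA1
  omega

/-- what is used of a leaf: `N = |V| - 2` -/
structure Lc (al be : LaurentPolynomial ℤ) (N : ℤ) : Prop where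
  na : NN al
  nb : NN be
  ub : ∀ j, N ≤ j → be.coeff j = 0
  nd : NN (al + vv * be)
  d0 : 1 ≤ (al + vv * be).coeff N
  d1 : 1 ≤ (al + vv * be).coeff (N - 1)

theorem ex_Lc {g : Gr V E} {h : Gr W E} (hl : Lg g h) :
    Lc (g.al ⊥ Finset.univ) (g.be ⊥ Finset.univ) ((Fintype.card V : ℤ) - 2) := by
  classical
  have hp := hl.pm
  have hab := hl.du.ab
  have h4 := ex_four hl
  have : Nonempty V := ⟨g.a⟩
  have hK := glue_K_univ hl.du.con
  have hV : nc (⊥ : Setoid V) = Fintype.card V := by rw [nc_bot, Nat.card_eq_fintype_card]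
  have hn : nc g.ab + 1 = nc (⊥ : Setoid V) := by
    have h1 := nc_sup_pr (σ := (⊥ : Setoid V)) (x := g.a) (y := g.b) (fun h => hab h)
    rw [bot_sup_eq] at h1
    exact h1
  have hsp : ∀ A : Finset E, g.sp g.ab A = g.sp ⊥ A ⊔ g.ab := by
    intro A
    have h1 := g.sp_sup ⊥ g.ab A
    rw [bot_sup_eq] at h1
    exact h1
  have hsu : nc (g.sp g.ab Finset.univ) = 1 := by
    rw [hsp]
    exact hK
  have hc2 : ∀ A : Finset E, A.Nonempty → A ≠ Finset.univ →
      nc (g.sp g.ab A) + nc (g.sp g.ab (Finset.univ \ A)) + 1 ≤ Fintype.card V := by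
    intro A h1 h2
    rw [hsp, hsp]
    exact hp.c2 A (Finset.nonempty_iff_ne_empty.1 h1) h2
  have hloop : ∀ f ∈ (Finset.univ : Finset E), ¬ g.ab (g.u f) (g.v f) := by
    intro f _ hf
    have hne : ({f} : Finset E) ≠ Finset.univ := by
      intro h2
      have h3 := congrArg Finset.card h2
      rw [Finset.card_singleton, Finset.card_univ] at h3
      have := hl.two
      omega
    have h1 := hc2 {f} (Finset.singleton_nonempty f) hne
    have h2 : g.sp g.ab ({f} : Finset E) ≤ g.ab := by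
      refine g.sp_le le_rfl fun e he => ?_
      rw [Finset.mem_singleton.1 he]
      exact hf
    have h3 := nc_anti h2
    have h5 := nc_pos (g.sp g.ab (Finset.univ \ {f}))
    omega
  have htwo := ex_two g g.ab (pr_rel _ _) Finset.univ hloop (by rw [hsu]; omega) (by
    intro A _ h1 h2
    have h3 := hc2 A h1 h2
    rw [hsu]
    omega)
  have hN : ((nc g.ab : ℕ) : ℤ) - nc (g.sp g.ab Finset.univ) = (Fintype.card V : ℤ) - 2 := by
    rw [hsu]
    omega
  rw [hN, ex_contr g hab] at htwo
  have hrk : (g.rk ⊥ Finset.univ : ℤ) = (Fintype.card V : ℤ) - 1 := by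
    unfold Gr.rk
    rw [hK, hV]
    omega
  refine ⟨(all_NN g ⊥ _).2, (all_NN g ⊥ _).1, ?_, ?_, htwo.1, htwo.2⟩
  · intro j hj
    by_contra hne
    have hd : ∀ A ⊆ (Finset.univ : Finset E), A.card < 2 → ¬ g.sp ⊥ A g.a g.b := by
      intro A _ hA
      rcases Finset.eq_empty_or_nonempty A with rfl | ⟨e, he⟩
      · rw [g.sp_empty]
        exact fun h => hab h
      · have h1 : A = {e} := by
          refine (Finset.eq_singleton_iff_unique_mem).2 ⟨he, fun x hx => ?_⟩
          by_contra hxe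
          have := Finset.one_lt_card.2 ⟨x, hx, e, he, hxe⟩
          omega
        rw [h1]
        exact hp.dist e
    have h1 := (all_SB g ⊥ Finset.univ 2 hd j hne).1
    rw [hrk] at h1
    push_cast at h1
    omega
  · rw [← ex_contr g hab]
    exact (all_NN g g.ab _).1

end leaf

end Pool.ALT
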