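import Pool.Agent.ALT.Ex.GraB
import Pool.Agent.ALT.Mo.Defs
import Pool.Agent.ARB.Unit

/-! # ALT, narrower exception: polynomials -/

set_option autoImplicit false

namespace Pool.ALT

open LaurentPolynomial Pool.Agent.ARB

theorem ex_coeff_mul (P Q : LP) (k : ℤ) :
    (P * Q).coeff k = ∑ i ∈ P.coeff.support, P.coeff i * Q.coeff (k - i) := by
  have key : (P * Q).coeff k = P.coeff.sum fun i c => c * Q.coeff (k - i) := by
    induction P using LaurentPolynomial.induction_on' with
    | add p q hp hq =>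
      rw [add_mul, coeff_add', hp, hq, AddMonoidAlgebra.coeff_add, Finsupp.sum_add_index']
      · intro i
        rw [zero_mul]
      · intro i a b
        rw [add_mul]
    | C_mul_T n a =>
      have h1 : (C a * T n * Q : LP).coeff k = a * Q.coeff (k - n) := by
        have h2 : (C a : LP) * T n * Q = C a * (T n * Q) := mul_assoc _ _ _
        have h3 : (C a * (T n * Q) : LP) = a • (T n * Q) := by
          rw [LaurentPolynomial.smul_eq_C_mul]
        rw [h2, h3, AddMonoidAlgebra.coeff_smul, Finsupp.smul_apply, coeff_T_mul, smul_eq_mul]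
      have h4 : (C a * T n : LP).coeff = Finsupp.single n a := by
        rw [← LaurentPolynomial.single_eq_C_mul_T]
        rfl
      rw [h1, h4, Finsupp.sum_single_index]
      rw [zero_mul]
  exact key

theorem ex_NN_mul {P Q : LP} (hP : NN P) (hQ : NN Q) : NN (P * Q) := by
  intro k
  rw [ex_coeff_mul]
  exact Finset.sum_nonneg fun i _ => mul_nonneg (hP i) (hQ _)

theorem ex_le_mul {P Q : LP} (hP : NN P) (hQ : NN Q) (i j : ℤ) :
    P.coeff i * Q.coeff j ≤ (P * Q).coeff (i + j) := by
  rw [ex_coeff_mul]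
  by_cases h : P.coeff i = 0
  · rw [h, zero_mul]
    exact Finset.sum_nonneg fun i _ => mul_nonneg (hP i) (hQ _)
  · have h1 : i ∈ P.coeff.support := Finsupp.mem_support_iff.2 h
    have h2 := Finset.single_le_sum (f := fun l => P.coeff l * Q.coeff (i + j - l))
      (fun l _ => mul_nonneg (hP l) (hQ _)) h1
    have h3 : i + j - i = j := by ring
    simp only [h3] at h2
    exact h2

theorem ex_zero_mul {P Q : LP} (k : ℤ) (h : ∀ i, P.coeff i = 0 ∨ Q.coeff (k - i) = 0) :
    (P * Q).coeff k = 0 := by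
  rw [ex_coeff_mul]
  refine Finset.sum_eq_zero fun i _ => ?_
  rcases h i with h1 | h1 <;> rw [h1]
  · rw [zero_mul]
  · rw [mul_zero]

/-- the pair of a word of moves: `true`: `(b, a) ↦ (y b + a, a)`, `false`: `(b, a) ↦ (b, s a + b)` -/
noncomputable def Fw : List Bool → LP × LP
  | [] => (T (-1), 1)
  | true :: l => (T (-1) * (Fw l).1 + (Fw l).2, (Fw l).2)
  | false :: l => ((Fw l).1, T 1 * (Fw l).2 + (Fw l).1)

theorem ex_Fw (l : List Bool) : NN (Fw l).1 ∧ NN (Fw l).2 ∧ ∃ α : ℤ, 1 ≤ (Fw l).2.coeff α ∧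
    (∀ j, α < j → (Fw l).1.coeff j = 0) ∧ ∀ j, α < j → (Fw l).2.coeff j = 0 := by
  induction l with
  | nil =>
    refine ⟨?_, NN_one, 0, ?_, ?_, ?_⟩
    · have h := NN_T (-1) NN_one
      rw [mul_one] at h
      exact h
    · show 1 ≤ (1 : LP).coeff 0
      rw [← T_zero, T_apply, if_pos rfl]
    · intro j hj
      show (T (-1) : LP).coeff j = 0
      rw [T_apply, if_neg (by omega)]
    · intro j hj
      show (1 : LP).coeff j = 0
      rw [← T_zero, T_apply, if_neg (by omega)]
  | cons c l ih =>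
    obtain ⟨h1, h2, α, h3, h4, h5⟩ := ih
    cases c with
    | true =>
      refine ⟨NN_add (NN_T _ h1) h2, h2, α, h3, ?_, h5⟩
      intro j hj
      show (T (-1) * (Fw l).1 + (Fw l).2).coeff j = 0
      rw [coeff_add', coeff_T_mul, h4 _ (by omega), h5 _ hj, add_zero]
    | false =>
      refine ⟨h1, NN_add (NN_T _ h2) h1, α + 1, ?_, fun j hj => h4 j (by omega), ?_⟩
      · show 1 ≤ (T 1 * (Fw l).2 + (Fw l).1).coeff (α + 1)
        rw [coeff_add', coeff_T_mul, h4 _ (by omega), add_zero]
        have e : α + 1 - 1 = α := by ring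
        rw [e]
        exact h3
      · intro j hj
        show (T 1 * (Fw l).2 + (Fw l).1).coeff j = 0
        rw [coeff_add', coeff_T_mul, h4 _ (by omega), h5 _ (by omega), add_zero]

/-- two coefficients are not zero -/
theorem ex_two_coeff {al be : LP} {N : ℤ} (h : Lc al be N) (l : List Bool) :
    ∃ α : ℤ, 1 ≤ (al * (Fw (true :: l)).1 - be * (Fw (true :: l)).2).coeff α ∧
      1 ≤ (al * (Fw (true :: l)).1 - be * (Fw (true :: l)).2).coeff (α - 1) := by
  obtain ⟨h1, h2, α, h3, h4, h5⟩ := ex_Fw l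
  have e : al * (Fw (true :: l)).1 - be * (Fw (true :: l)).2 =
      (al + vv * be) * (Fw l).2 + (T (-1) * (al * (Fw l).1) - T (-1) * (be * (Fw l).2)) := by
    show al * (T (-1) * (Fw l).1 + (Fw l).2) - be * (Fw l).2 = _
    unfold vv
    ring
  have hz : ∀ k, N + α ≤ k → (be * (Fw l).2).coeff k = 0 := by
    intro k hk
    refine ex_zero_mul k fun i => ?_
    by_cases hi : N ≤ i
    · exact Or.inl (h.ub i hi)
    · exact Or.inr (h5 _ (by omega))
  have hp := ex_NN_mul h.na h1
  have key : ∀ k : ℤ, N + α - 1 ≤ k → ((al + vv * be) * (Fw l).2).coeff k ≤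
      (al * (Fw (true :: l)).1 - be * (Fw (true :: l)).2).coeff k := by
    intro k hk
    rw [e, coeff_add', AddMonoidAlgebra.coeff_sub, Finsupp.sub_apply, coeff_T_mul, coeff_T_mul,
      hz (k - -1) (by omega)]
    have := hp (k - -1)
    linarith
  refine ⟨N + α, ?_, ?_⟩
  · refine le_trans ?_ (key _ (by omega))
    refine le_trans ?_ (ex_le_mul h.nd h2 N α)
    have := h.d0
    nlinarith
  · refine le_trans ?_ (key _ (by omega))
    have e2 : N + α - 1 = (N - 1) + α := by ring
    rw [e2]
    refine le_trans ?_ (ex_le_mul h.nd h2 (N - 1) α)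
    have := h.d1
    nlinarith

/-! ### the substitution -/

theorem ex_phi_T (e : Bool) (n : ℤ) : phi e (T n) = ((u4 e ^ n : LPˣ) : LP) := by
  unfold phi
  rw [LaurentPolynomial.eval₂_T]

theorem ex_u4_pow (e : Bool) (n : ℤ) : ((u4 e ^ n : LPˣ) : LP) = T (4 * sg e * n) ∨
    ((u4 e ^ n : LPˣ) : LP) = -T (4 * sg e * n) := by
  have h0 : ((u4 e : LPˣ) : LP) = -T (4 * sg e) := rfl
  have h0' : (((u4 e)⁻¹ : LPˣ) : LP) = -T (-(4 * sg e)) := rfl
  induction n using Int.induction_on with
  | zero =>
    left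
    rw [zpow_zero, mul_zero, T_zero]
    rfl
  | succ n ih =>
    rw [zpow_add_one, Units.val_mul, h0]
    have h1 : (4 * sg e * ((n : ℤ) + 1)) = 4 * sg e * n + 4 * sg e := by ring
    rw [h1, T_add]
    rcases ih with h | h <;> rw [h]
    · right
      ring
    · left
      ring
  | pred n ih =>
    rw [zpow_sub_one, Units.val_mul, h0']
    have h1 : (4 * sg e * (-(n : ℤ) - 1)) = 4 * sg e * -(n : ℤ) + -(4 * sg e) := by ring
    rw [h1, T_add]
    rcases ih with h | h <;> rw [h]
    · right
      ring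
    · left
      ring

theorem ex_phi_coeff (e : Bool) (P : LP) (j : ℤ) :
    (phi e P).coeff (4 * sg e * j) = P.coeff j ∨ (phi e P).coeff (4 * sg e * j) = -P.coeff j := by
  have hs : sg e ≠ 0 := by
    cases e <;> simp [sg]
  have key : ∃ c : ℤ, (c = 1 ∨ c = -1) ∧ ∀ P : LP, (phi e P).coeff (4 * sg e * j) =
      c * P.coeff j := by
    obtain ⟨c, hc, hcj⟩ : ∃ c : ℤ, (c = 1 ∨ c = -1) ∧
        ((u4 e ^ j : LPˣ) : LP) = C c * T (4 * sg e * j) := by
      rcases ex_u4_pow e j with h | h
      · exact ⟨1, Or.inl rfl, by rw [h, map_one, one_mul]⟩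
      · exact ⟨-1, Or.inr rfl, by rw [h, map_neg, map_one, neg_one_mul]⟩
    refine ⟨c, hc, fun P => ?_⟩
    induction P using LaurentPolynomial.induction_on' with
    | add p q hp hq => rw [map_add, coeff_add', coeff_add', hp, hq, mul_add]
    | C_mul_T n a =>
      have h1 : phi e (C a) = C a := by
        unfold phi
        rw [LaurentPolynomial.eval₂_C]
        rfl
      rw [RingHom.map_mul (phi e), ex_phi_T, h1]
      have hco : ∀ (x : ℤ) (m k : ℤ), (C x * T m : LP).coeff k = if m = k then x else 0 := by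
        intro x m k
        rw [← LaurentPolynomial.single_eq_C_mul_T]
        exact Finsupp.single_apply
      by_cases hn : n = j
      · rw [hn, hcj, ← mul_assoc, ← map_mul, hco, hco, if_pos rfl, if_pos rfl, mul_comm]
      · rw [hco, if_neg hn, mul_zero]
        have h2 : 4 * sg e * n ≠ 4 * sg e * j := by
          intro h3
          have h4 : (4 * sg e) ≠ 0 := mul_ne_zero (by norm_num) hs
          exact hn (mul_left_cancel₀ h4 h3)
        rcases ex_u4_pow e n with h | h <;> rw [h]
        · rw [hco, if_neg h2]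
        · rw [show C a * -T (4 * sg e * n) = C (-a) * T (4 * sg e * n) by
            rw [map_neg]; ring, hco, if_neg h2]
  obtain ⟨c, hc, h⟩ := key
  rcases hc with hc | hc
  · left
    rw [h, hc, one_mul]
  · right
    rw [h, hc, neg_one_mul]

/-- the image of a polynomial with two coefficients is not a unit -/
theorem ex_not_unit (e : Bool) (P : LP) (i j : ℤ) (hij : i ≠ j) (hi : P.coeff i ≠ 0)
    (hj : P.coeff j ≠ 0) : ¬ IsU (phi e P) := by
  have hs : (4 * sg e) ≠ 0 := by
    cases e <;> simp [sg]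
  rintro ⟨n, h⟩
  have h1 : ∀ k, P.coeff k ≠ 0 → n = 4 * sg e * k := by
    intro k hk
    by_contra hne
    have h2 : (phi e P).coeff (4 * sg e * k) = 0 := by
      rcases h with h | h <;> rw [h]
      · rw [T_apply, if_neg hne]
      · rw [AddMonoidAlgebra.coeff_neg, Finsupp.neg_apply, T_apply, if_neg hne, neg_zero]
    rcases ex_phi_coeff e P k with h3 | h3 <;> rw [h2] at h3
    · exact hk h3.symm
    · exact hk (neg_eq_zero.1 h3.symm)
  have h2 := (h1 i hi).symm.trans (h1 j hj)
  exact hij (mul_left_cancel₀ hs h2)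

end Pool.ALT
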